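import Mathlib

set_option autoImplicit false

namespace Pool.Agent.H.MP_196ef9_co
open Finset

lemma var_le (m : ℕ) : ∀ f : (Fin m → Bool) → ℝ,
    (∀ x i, |f x - f (Function.update x i (!x i))| ≤ 1) →
    2 ^ m * ∑ x, f x ^ 2 - (∑ x, f x) ^ 2 ≤ m / 4 * (2 ^ m) ^ 2 := by
  induction m with
  | zero => intro f _; simp
  | succ m ih =>
    intro f h
    have sp : ∀ g : (Fin (m + 1) → Bool) → ℝ, ∑ x, g x =
        ∑ x : Fin m → Bool, g (Fin.cons true x) + ∑ x : Fin m → Bool, g (Fin.cons false x) := by
      intro g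
      rw [← (Fin.consEquiv fun _ => Bool).sum_comp, Fintype.sum_prod_type, Fintype.sum_bool]
      rfl
    have l : ∀ b : Bool, ∀ (x : Fin m → Bool) i, |f (Fin.cons b x) -
        f (Fin.cons b (Function.update x i (!x i)))| ≤ 1 := fun b x i => by
      have := h (Fin.cons b x) i.succ
      rwa [Fin.cons_succ, ← Fin.cons_update] at this
    have a := ih (fun x => f (Fin.cons true x)) (l true)
    have b := ih (fun x => f (Fin.cons false x)) (l false)
    have c : |∑ x : Fin m → Bool, f (Fin.cons true x) - ∑ x : Fin m → Bool, f (Fin.cons false x)|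
        ≤ 2 ^ m := by
      rw [← sum_sub_distrib]
      refine (abs_sum_le_sum_abs _ _).trans ((sum_le_card_nsmul _ _ 1 fun x _ => ?_).trans ?_)
      · have := h (Fin.cons true x) 0
        rwa [Fin.cons_zero, Fin.update_cons_zero] at this
      · simp
    have c2 := sq_le_sq' (abs_le.1 c).1 (abs_le.1 c).2
    rw [sp, sp f]
    push_cast
    rw [pow_succ (2 : ℝ) m]
    nlinarith

lemma close (m t : ℕ) (A B : Finset (Fin m → Bool))
    (h : (m : ℝ) * (2 ^ m) ^ 2 < (A.card : ℝ) * B.card * (t + 1) ^ 2) :
    ∃ a ∈ A, ∃ b ∈ B, hammingDist a b ≤ t := by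
  classical
  by_contra hn
  push Not at hn
  have hA : A.Nonempty := by
    rcases A.eq_empty_or_nonempty with rfl | e
    · simp at h
      exact absurd h (not_lt.2 (by positivity))
    · exact e
  let d : (Fin m → Bool) → ℕ := fun x => A.inf' hA fun a => hammingDist a x
  have lip : ∀ x y, d x ≤ d y + hammingDist y x := fun x y => by
    obtain ⟨a, ha, e⟩ := A.exists_mem_eq_inf' hA fun a => hammingDist a y
    exact (inf'_le _ ha).trans ((hammingDist_triangle a y x).trans (by simp only [d, e]; rfl))
  have one : ∀ (x : Fin m → Bool) i, hammingDist x (Function.update x i (!x i)) ≤ 1 := by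
    intro x i
    refine card_le_one.2 fun p hp q hq => ?_
    have : ∀ p, x p ≠ Function.update x i (!x i) p → p = i := fun p hp => by
      by_contra e
      exact hp (by rw [Function.update_of_ne e])
    rw [this p (mem_filter.1 hp).2, this q (mem_filter.1 hq).2]
  have v := var_le m (fun x => d x) fun x i => by
    have p := lip x (Function.update x i (!x i))
    have q := lip (Function.update x i (!x i)) x
    have r := one x i
    rw [hammingDist_comm] at p
    rw [abs_le]
    constructor
    · have : (d (Function.update x i (!x i)) : ℝ) ≤ d x + 1 := by exact_mod_cast (by omega)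
      linarith
    · have : (d x : ℝ) ≤ d (Function.update x i (!x i)) + 1 := by exact_mod_cast (by omega)
      linarith
  have e : ∑ x, ∑ y, ((d x : ℝ) - d y) ^ 2 =
      2 * (2 ^ m * ∑ x, (d x : ℝ) ^ 2 - (∑ x, (d x : ℝ)) ^ 2) := by
    simp only [sub_sq, sum_add_distrib, sum_sub_distrib, sum_const, card_univ, Fintype.card_pi,
      Fintype.card_bool, prod_const, Fintype.card_fin, nsmul_eq_mul, ← mul_sum, ← sum_mul]
    push_cast
    ring
  have lo : (A.card : ℝ) * B.card * (t + 1) ^ 2 ≤ ∑ x, ∑ y, ((d x : ℝ) - d y) ^ 2 := by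
    calc _ = ∑ x ∈ A, ∑ y ∈ B, ((t : ℝ) + 1) ^ 2 := by simp [mul_assoc]
      _ ≤ ∑ x ∈ A, ∑ y, ((d x : ℝ) - d y) ^ 2 := by
        refine sum_le_sum fun x hx => le_trans (sum_le_sum fun y hy => ?_)
          (sum_le_sum_of_subset_of_nonneg (subset_univ B) fun _ _ _ => sq_nonneg _)
        have p : d x = 0 := Nat.le_zero.1 ((inf'_le _ hx).trans (by simp))
        have q : t + 1 ≤ d y := (le_inf'_iff _ _).2 fun a ha => hn a ha y hy
        have q' : (t : ℝ) + 1 ≤ d y := by exact_mod_cast q
        rw [p]
        have : (0 : ℝ) ≤ t := by positivity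
        push_cast
        nlinarith
      _ ≤ _ := sum_le_sum_of_subset_of_nonneg (subset_univ A)
          fun _ _ _ => sum_nonneg fun _ _ => sq_nonneg _
  have : (0 : ℝ) ≤ m * (2 ^ m) ^ 2 := by positivity
  linarith

/-- Small families of cube points are constant on a large set of coordinates. -/
lemma const_on {m t : ℕ} {α : Type} (S : Finset α) (x : α → Fin m → Bool)
    (h : 2 ^ S.card * t < m) : ∃ (J : Finset (Fin m)) (c : α → Bool), t < J.card ∧
      ∀ a ∈ S, ∀ j ∈ J, x a j = c a := by
  classical
  obtain ⟨c, -, hc⟩ := exists_lt_card_fiber_of_mul_lt_card_of_maps_to (s := univ)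
    (t := (univ : Finset (S → Bool))) (f := fun j a => x a j) (n := t) (fun _ _ => mem_univ _)
    (by simpa using h)
  refine ⟨_, fun a => if h : a ∈ S then c ⟨a, h⟩ else false, hc, fun a ha j hj => ?_⟩
  simp only [dif_pos ha]
  exact congrFun (mem_filter.1 hj).2 ⟨a, ha⟩

end Pool.Agent.H.MP_196ef9_co
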