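import Pool.Agent.H.MP_196ef9_co.D

set_option autoImplicit false

namespace Pool.Agent.H.MP_196ef9_co
open Finset

section
variable {V : Type} [Fintype V] [DecidableEq V]

omit [DecidableEq V] in
lemma Pours.le_one {p : ℕ → V → ℝ} (h : Pours p) (t : ℕ) (v : V) : p t v ≤ 1 :=
  (h t).2 ▸ single_le_sum (f := p t) (fun u _ => (h t).1 u) (mem_univ v)

lemma content_nonneg {p : ℕ → V → ℝ} (h : Pours p) (I : ℕ → Finset V) :
    ∀ t v, 0 ≤ content p I t v
  | 0, v => (h 0).1 v
  | t + 1, v => by
    have := content_nonneg h I t v
    have := (h (t + 1)).1 v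
    simp only [content]
    split_ifs <;> linarith

omit [Fintype V] in
lemma sum_succ (p : ℕ → V → ℝ) (I : ℕ → Finset V) (t : ℕ) (S : Finset V) :
    ∑ v ∈ S, content p I (t + 1) v = ∑ v ∈ S, content p I t v -
      ∑ v ∈ S ∩ I t, content p I t v + ∑ v ∈ S, p (t + 1) v := by
  simp only [content, sum_add_distrib]
  congr 1
  rw [← sum_ite_mem, ← sum_sub_distrib]
  refine sum_congr rfl fun v _ => ?_
  split_ifs <;> simp

lemma greedy_card [Nonempty V] (G : SimpleGraph V) : GreedyWins G (Fintype.card V) := by
  intro p I hp hI
  have c : (1 : ℝ) ≤ Fintype.card V := by exact_mod_cast Fintype.card_pos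
  have key : ∀ t, ∑ v, content p I t v ≤ Fintype.card V := by
    intro t
    induction t with
    | zero => exact (hp 0).2.le.trans c
    | succ t ih =>
      rw [sum_succ, (hp _).2, univ_inter]
      have : ∑ v, content p I t v ≤ Fintype.card V * ∑ v ∈ I t, content p I t v := by
        refine (sum_le_card_nsmul _ _ (∑ v ∈ I t, content p I t v) fun v _ => ?_).trans (by simp)
        simpa using (hI t).2 {v} (by simp [SimpleGraph.IsIndepSet])
      nlinarith
  exact fun t v => (single_le_sum (f := content p I t)
    (fun u _ => content_nonneg hp I t u) (mem_univ v)).trans (key t)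

/-- States of a feedback strategy. -/
def st (f : ℕ → (V → ℝ) → Finset V) (p : ℕ → V → ℝ) : ℕ → V → ℝ
  | 0 => p 0
  | t + 1 => fun v => (if v ∈ f t (st f p t) then 0 else st f p t v) + p (t + 1) v

lemma wins_of (G : SimpleGraph V) (b : ℝ) (f : ℕ → (V → ℝ) → Finset V)
    (h : ∀ p I, Pours p → (∀ t, I t = f t (content p I t)) →
      ∀ t, G.IsIndepSet (I t : Set V) ∧ ∀ v, content p I t v ≤ b) : Wins G b := by
  refine ⟨fun p t => f t (st f p t), fun p q t e => ?_, fun p hp => h p _ hp fun t => ?_⟩
  · have : ∀ s ≤ t, st f p s = st f q s := by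
      intro s
      induction s with
      | zero => exact fun h => e 0 h
      | succ s ih => exact fun h => by simp only [st, ih (by omega), e _ h]
    simp only [this t le_rfl]
  · have : st f p t = content p (fun t => f t (st f p t)) t := by
      induction t with
      | zero => rfl
      | succ t ih => simp only [st, content, ← ih]
    exact congrArg (f t) this
end

lemma wins6 {n : ℕ} (hn : 0 < n) {X : Type} [Fintype X] [DecidableEq X]
    (G : SimpleGraph (Option (Fin n × X)))
    (hb : ∀ i x y, ¬ G.Adj (some (i, x)) (some (i, y)))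
    (hd : ∀ S : Finset (Option (Fin n × X)), none ∉ S → S.card ≤ 4 * n →
      ∃ J : Finset (Option (Fin n × X)), G.IsIndepSet (J : Set _) ∧
        G.IsIndepSet ((S \ J : Finset _) : Set _)) : Wins G 6 := by
  classical
  have : Nonempty (Fin n) := ⟨⟨0, hn⟩⟩
  let P : Fin n → Finset (Option (Fin n × X)) := fun i => univ.image fun x => some (i, x)
  have hP : ∀ y : Option (Fin n × X) → ℝ, ∃ i, ∀ j, ∑ v ∈ P j, y v ≤ ∑ v ∈ P i, y v := fun y => by
    obtain ⟨i, -, hi⟩ := exists_max_image univ (fun i => ∑ v ∈ P i, y v) univ_nonempty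
    exact ⟨i, fun j => hi j (mem_univ _)⟩
  choose top htop using hP
  choose! J hJ using hd
  let S : ℝ → (Option (Fin n × X) → ℝ) → Finset (Option (Fin n × X)) :=
    fun c y => (univ.erase none).filter fun v => c ≤ y v
  refine wins_of G 6 (fun t y => if t % 4 = 0 then P (top y) else if t % 4 = 1 then {none} else
    if t % 4 = 2 then J (S 1 y) else S 2 y) fun p I hp hI => ?_
  have nn := content_nonneg hp I
  have i0 : ∀ t, t % 4 = 0 → I t = P (top (content p I t)) := fun t h => by
    rw [hI t, if_pos h]
  have i1 : ∀ t, t % 4 = 1 → I t = {none} := fun t h => by simp [hI t, h]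
  have i2 : ∀ t, t % 4 = 2 → I t = J (S 1 (content p I t)) := fun t h =>
    (hI t).trans (by simp [h])
  have i3 : ∀ t, t % 4 = 3 → I t = S 2 (content p I t) := fun t h =>
    (hI t).trans (by simp [h])
  have sP : ∀ y : Option (Fin n × X) → ℝ, ∑ v ∈ univ.erase none, y v = ∑ i, ∑ v ∈ P i, y v := by
    intro y
    have : ∀ i, ∑ v ∈ P i, y v = ∑ x, y (some (i, x)) := fun i =>
      sum_image fun a _ b _ e => by simpa using e
    simp only [this]
    rw [← Fintype.sum_prod_type', sum_erase_eq_sub (mem_univ _), Fintype.sum_option]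
    simp
  have pl : ∀ t, ∑ v ∈ univ.erase none, p t v ≤ 1 := fun t => (hp t).2 ▸
    sum_le_sum_of_subset_of_nonneg (subset_univ _) fun v _ _ => (hp t).1 v
  have n1 : (1 : ℝ) ≤ n := by exact_mod_cast hn
  have T : ∀ t, ∑ v ∈ univ.erase none, content p I t v ≤ 4 * n - 3 + ((t + 3) % 4 : ℕ) := by
    intro t
    induction t with
    | zero => have := pl 0; simp only [content]; push_cast; linarith
    | succ t ih =>
      rw [sum_succ]
      have a := pl (t + 1)
      by_cases h : t % 4 = 0
      · have e : (univ.erase none) ∩ I t = P (top (content p I t)) := by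
          rw [i0 t h]
          exact inter_eq_right.2 fun v hv => by
            obtain ⟨x, -, rfl⟩ := mem_image.1 hv
            simp
        have : ∑ v ∈ univ.erase none, content p I t v ≤
            n * ∑ v ∈ P (top (content p I t)), content p I t v := by
          rw [sP]
          exact (sum_le_card_nsmul _ _ _ fun j _ => htop _ j).trans (by simp)
        rw [e, show (t + 1 + 3) % 4 = 0 by omega]
        rw [show (t + 3) % 4 = 3 by omega] at ih
        push_cast at ih ⊢
        nlinarith
      · have : 0 ≤ ∑ v ∈ univ.erase none ∩ I t, content p I t v := sum_nonneg fun v _ => nn t v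
        rw [show (t + 1 + 3) % 4 = (t + 3) % 4 + 1 by omega]
        push_cast
        linarith
  have cS : ∀ t, (S 1 (content p I t)).card ≤ 4 * n := fun t => by
    have a : ((S 1 (content p I t)).card : ℝ) ≤ ∑ v ∈ S 1 (content p I t), content p I t v := by
      simpa using card_nsmul_le_sum _ (content p I t) 1 fun v hv => (mem_filter.1 hv).2
    have b : ∑ v ∈ S 1 (content p I t), content p I t v ≤ _ :=
      (sum_le_sum_of_subset_of_nonneg (filter_subset _ _) fun v _ _ => nn t v).trans (T t)
    have c : (((t + 3) % 4 : ℕ) : ℝ) ≤ 3 := by exact_mod_cast (by omega)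
    exact_mod_cast (by linarith : ((S 1 (content p I t)).card : ℝ) ≤ 4 * n)
  have hJ' := fun t => hJ (S 1 (content p I t)) (by simp [S]) (cS t)
  have A : ∀ t, content p I t none ≤ 1 + ((t + 2) % 4 : ℕ) := by
    intro t
    induction t with
    | zero => have := hp.le_one 0 none; simp only [content]; norm_num; linarith
    | succ t ih =>
      have a := hp.le_one (t + 1) none
      simp only [content]
      by_cases h : t % 4 = 1
      · rw [i1 t h, if_pos (mem_singleton_self _)]
        have : (0 : ℝ) ≤ ((t + 1 + 2) % 4 : ℕ) := by positivity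
        linarith
      · rw [show (t + 1 + 2) % 4 = (t + 2) % 4 + 1 by omega]
        have := nn t none
        push_cast
        split_ifs <;> linarith
  have B : ∀ t u, content p I t (some u) ≤ 3 + (t % 4 : ℕ) := by
    intro t u
    induction t with
    | zero => have := hp.le_one 0 (some u); simp only [content]; norm_num; linarith
    | succ t ih =>
      have a := hp.le_one (t + 1) (some u)
      simp only [content]
      by_cases h : t % 4 = 3
      · rw [show (t + 1) % 4 = 0 by omega]
        split_ifs with h'
        · push_cast; linarith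
        · rw [i3 t h] at h'
          simp only [S, mem_filter, mem_erase, ne_eq, reduceCtorEq, not_false_eq_true, mem_univ,
            and_self, true_and, not_le] at h'
          push_cast; linarith
      · rw [show (t + 1) % 4 = t % 4 + 1 by omega]
        have := nn t (some u)
        push_cast
        split_ifs <;> linarith
  refine fun t => ⟨?_, fun v => ?_⟩
  · rw [hI t]
    split_ifs with h0 h1 h2
    · intro a ha b hb' _
      obtain ⟨x, -, rfl⟩ := mem_image.1 ha
      obtain ⟨y, -, rfl⟩ := mem_image.1 hb'
      exact hb _ _ _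
    · simp [SimpleGraph.IsIndepSet]
    · exact (hJ' t).1
    · obtain ⟨s, rfl⟩ : ∃ s, t = s + 1 := ⟨t - 1, by omega⟩
      refine (hJ' s).2.mono fun v hv => ?_
      have a := hp.le_one (s + 1) v
      simp only [S, coe_filter, Set.mem_ofPred_eq, content] at hv
      rw [i2 s (by omega)] at hv
      refine mem_coe.2 (mem_sdiff.2 ⟨mem_filter.2 ⟨hv.1, ?_⟩, fun h => ?_⟩)
      · have := hv.2
        split_ifs at this <;> linarith
      · have := hv.2
        rw [if_pos h] at this
        linarith
  · have c : ((t % 4 : ℕ) : ℝ) ≤ 3 := by exact_mod_cast (by omega)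
    have c' : (((t + 2) % 4 : ℕ) : ℝ) ≤ 3 := by exact_mod_cast (by omega)
    cases v with
    | none => linarith [A t]
    | some u => linarith [B t u]

end Pool.Agent.H.MP_196ef9_co
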