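import Pool.Agent.H.MP_196ef9_co.B

set_option autoImplicit false

namespace Pool.Agent.H.MP_196ef9_co
open Finset

lemma greedy_low {n R L : ℕ} (hn : R + L = n) (hR : 0 < R) {X : Type} [Fintype X] [DecidableEq X]
    [Nonempty X] (G : SimpleGraph (Option (Fin n × X)))
    (ha : ∀ u, G.Adj none (some u))
    (hb : ∀ i x y, ¬ G.Adj (some (i, x)) (some (i, y)))
    (hc : ∀ I : Finset (Option (Fin n × X)), G.IsIndepSet (I : Set _) → ∃ i, ∀ j ≠ i,
      ((univ.filter fun x => some (j, x) ∈ I).card : ℝ) * n ^ 2 ≤ Fintype.card X)
    (hH : (L + 1 : ℝ) < ∑ s ∈ range R, 1 / ((n : ℝ) - s)) (b : ℝ) (hg : GreedyWins G b) :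
    (L : ℝ) ≤ b := by
  classical
  have : Nonempty (Fin n) := ⟨⟨0, by omega⟩⟩
  have N0 : (0 : ℝ) < Fintype.card X := by exact_mod_cast Fintype.card_pos
  have n0 : (0 : ℝ) < n := by exact_mod_cast (by omega)
  have hgr : ∀ y : Option (Fin n × X) → ℝ, ∃ I : Finset (Option (Fin n × X)),
      G.IsIndepSet (I : Set _) ∧ ∀ J : Finset (Option (Fin n × X)), G.IsIndepSet (J : Set _) →
        ∑ v ∈ J, y v ≤ ∑ v ∈ I, y v := fun y => by
    obtain ⟨I, hI, h⟩ := exists_max_image (univ.filter fun I : Finset (Option (Fin n × X)) =>
      G.IsIndepSet (I : Set _)) (fun I => ∑ v ∈ I, y v) ⟨∅, by simp [SimpleGraph.IsIndepSet]⟩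
    exact ⟨I, (mem_filter.1 hI).2, fun J hJ => h J (mem_filter.2 ⟨mem_univ _, hJ⟩)⟩
  choose gr hgr using hgr
  choose! hv hhv using hc
  have hnx : ∀ (A : Finset (Fin n)) (i : Fin n), ∃ B ⊆ A, i ∉ B ∧ B.card = A.card - 1 := by
    intro A i
    by_cases h : i ∈ A
    · exact ⟨A.erase i, erase_subset _ _, by simp, card_erase_of_mem h⟩
    · obtain ⟨B, h1, h2⟩ := exists_subset_card_eq (s := A) (n := A.card - 1) (by omega)
      exact ⟨B, h1, fun e => h (h1 e), h2⟩
  choose nx hnx using hnx
  let pour : ℕ → Finset (Fin n) → Option (Fin n × X) → ℝ := fun r A v =>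
    if r < R then v.elim 0 fun u => if u.1 ∈ A then 1 / (A.card * Fintype.card X) else 0
    else v.elim 1 fun _ => 0
  let s : ℕ → (Option (Fin n × X) → ℝ) × Finset (Fin n) := fun r => Nat.rec (pour 0 univ, univ)
    (fun r q => (fun v => (if v ∈ gr q.1 then 0 else q.1 v) +
      pour (r + 1) (nx q.2 (hv (gr q.1))) v, nx q.2 (hv (gr q.1)))) r
  let p : ℕ → Option (Fin n × X) → ℝ := fun r => pour r (s r).2
  let I : ℕ → Finset (Option (Fin n × X)) := fun r => gr (s r).1
  have e : ∀ r, content p I r = (s r).1 := by
    intro r
    induction r with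
    | zero => rfl
    | succ r ih => simp only [content, ih]; rfl
  obtain ⟨A, hA, A0, As⟩ : ∃ A : ℕ → Finset (Fin n), (∀ r, p r = pour r (A r)) ∧ A 0 = univ ∧
      ∀ r, A (r + 1) = nx (A r) (hv (I r)) := ⟨fun r => (s r).2, fun _ => rfl, rfl, fun _ => rfl⟩
  have hI : ∀ r, I r = gr (content p I r) := fun r => by rw [e]
  clear_value p I
  clear e s
  have cA : ∀ r, (A r).card = n - r := by
    intro r
    induction r with
    | zero => simp [A0]
    | succ r ih => rw [As, (hnx _ _).2.2, ih]; omega
  have cA' : ∀ r < R, ((A r).card : ℝ) = n - r := fun r h => by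
    rw [cA, Nat.cast_sub (by omega)]
  have pos : ∀ r < R, (1 : ℝ) ≤ (A r).card := fun r h => by
    rw [cA]; exact_mod_cast (by omega)
  have part : ∀ r i, ∑ x, p r (some (i, x)) =
      if r < R then (if i ∈ A r then 1 / ((n : ℝ) - r) else 0) else 0 := fun r i => by
    simp only [hA, pour, Option.elim]
    split_ifs with h h'
    · have := pos r h
      rw [← cA' r h, sum_const, card_univ, nsmul_eq_mul]
      field_simp
    · simp
    · simp
  have hp : Pours p := fun r => ⟨fun v => ?_, ?_⟩
  rotate_left
  · cases v <;> simp only [hA, pour, Option.elim] <;> split_ifs <;> positivity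
  · rw [Fintype.sum_option, Fintype.sum_prod_type]
    simp only [part]
    by_cases h : r < R
    · have := pos r h
      simp only [hA, pour, if_pos h, Option.elim, sum_ite_mem, univ_inter, sum_const,
        nsmul_eq_mul, ← cA' r h]
      field_simp
      simp
    · simp [hA, pour, h]
  have nn := content_nonneg hp I
  have gI := fun r => (hI r).symm ▸ hgr (content p I r)
  have pu : ∀ r u, p r (some u) ≤ 1 / Fintype.card X := fun r u => by
    simp only [hA, pour, Option.elim]
    split_ifs with h h'
    · have := pos r h
      exact one_div_le_one_div_of_le N0 (by nlinarith)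
    · positivity
    · positivity
  have up : ∀ r u, content p I r (some u) ≤ (r + 1) / Fintype.card X := by
    intro r u
    induction r with
    | zero => simpa [content] using pu 0 u
    | succ r ih =>
      have a := pu (r + 1) u
      have := nn r (some u)
      simp only [content]
      push_cast
      rw [add_div _ 1]
      split_ifs <;> linarith
  have low : ∀ r ≤ n, ∀ i ∈ A r, ∑ s ∈ range (r + 1), (if s < R then 1 / ((n : ℝ) - s) else 0)
      - r / n ≤ ∑ x, content p I r (some (i, x)) := by
    intro r
    induction r with
    | zero => intro _ i hi; simp [content, part, hi]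
    | succ r ih =>
      intro hr i hi
      have hi' := hi
      rw [As] at hi'
      have a := ih (by omega) i ((hnx _ _).1 hi')
      have b := hhv (I r) (gI r).1 i fun e => (hnx _ _).2.1 (e ▸ hi')
      have c : ∑ x ∈ univ.filter fun x => some (i, x) ∈ I r, content p I r (some (i, x)) ≤
          1 / n := by
        refine (sum_le_card_nsmul _ _ ((n : ℝ) / Fintype.card X) fun x _ =>
          (up r (i, x)).trans ?_).trans ?_
        · gcongr; exact_mod_cast hr
        · rw [nsmul_eq_mul, ← mul_div_assoc, div_le_div_iff₀ N0 n0]
          nlinarith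
      have d : ∑ x, (if some (i, x) ∈ I r then 0 else content p I r (some (i, x))) =
          ∑ x, content p I r (some (i, x)) -
          ∑ x ∈ univ.filter fun x => some (i, x) ∈ I r, content p I r (some (i, x)) := by
        rw [sum_filter, ← sum_sub_distrib]
        refine sum_congr rfl fun v _ => ?_
        split_ifs <;> simp
      rw [sum_range_succ]
      simp only [content, sum_add_distrib, part, if_pos hi, d]
      push_cast
      rw [add_div _ 1]
      linarith
  have pn : ∀ r, p r none = if r < R then 0 else 1 := fun r => by
    simp only [hA, pour, Option.elim]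
  have upv : ∀ r, content p I r none ≤ (r + 1 - R : ℕ) := by
    intro r
    induction r with
    | zero => simp [content, pn, hR]
    | succ r ih =>
      have := nn r none
      simp only [content, pn]
      by_cases h : r + 1 < R
      · rw [show r + 1 - R = 0 by omega] at ih
        rw [show r + 1 + 1 - R = 0 by omega, if_pos h]
        split_ifs <;> linarith
      · rw [show r + 1 + 1 - R = r + 1 - R + 1 by omega, if_neg h]
        push_cast
        split_ifs <;> linarith
  have lov : ∀ k ≤ L, (k : ℝ) ≤ content p I (R + k) none := by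
    intro k
    induction k with
    | zero => intro _; simpa using nn _ _
    | succ k ih =>
      intro hk
      have a := ih (by omega)
      have : none ∉ I (R + k) := fun h => by
        obtain ⟨i, hi⟩ : (A (R + k)).Nonempty := card_pos.1 (by rw [cA]; omega)
        have b := low (R + k) (by omega) i hi
        have c := (gI (R + k)).2 (univ.image fun x => some (i, x)) fun a ha b hb' _ => by
          obtain ⟨x, -, rfl⟩ := mem_image.1 ha
          obtain ⟨y, -, rfl⟩ := mem_image.1 hb'
          exact hb _ _ _
        rw [sum_image fun a _ b _ e => by simpa using e] at c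
        have d : I (R + k) = {none} := eq_singleton_iff_unique_mem.2 ⟨h, fun v hv => by
          cases v with
          | none => rfl
          | some u => exact absurd (ha u) ((gI _).1 h hv (by simp))⟩
        rw [d, sum_singleton] at c
        have f := upv (R + k)
        have f' : ((R + k + 1 - R : ℕ) : ℝ) ≤ L := by exact_mod_cast (by omega)
        have g : ((R + k : ℕ) : ℝ) / n ≤ 1 := by
          rw [div_le_one n0]; exact_mod_cast (by omega)
        rw [← sum_filter, show (range (R + k + 1)).filter (· < R) = range R by
          ext; simp; omega] at b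
        linarith
      rw [← add_assoc]
      simp only [content, pn, if_neg this, if_neg (show ¬ R + k + 1 < R by omega)]
      push_cast
      linarith
  exact (lov L le_rfl).trans (hg p I hp gI _ _)

end Pool.Agent.H.MP_196ef9_co
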