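import Mathlib

set_option autoImplicit false

namespace Pool.Agent.H.MP_196ef9_co
open Finset

variable {V : Type} [Fintype V] [DecidableEq V]

/-- In every round the Stepmother adds nonnegative amounts with total `1`. -/
def Pours (p : ℕ → V → ℝ) : Prop :=
  ∀ t, (∀ v, 0 ≤ p t v) ∧ ∑ v, p t v = 1

/-- The bucket contents right after the Stepmother's move in round `t`, when she pours `p s` and
Cinderella empties `I s` in round `s`. All buckets start empty. -/
def content (p : ℕ → V → ℝ) (I : ℕ → Finset V) : ℕ → V → ℝ
  | 0 => p 0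
  | t + 1 => fun v => (if v ∈ I t then 0 else content p I t v) + p (t + 1) v

/-- Cinderella has a strategy (her move in round `t` depends only on the pours up to round `t`)
that always empties an independent set and never lets a bucket exceed `b`. -/
def Wins (G : SimpleGraph V) (b : ℝ) : Prop :=
  ∃ σ : (ℕ → V → ℝ) → ℕ → Finset V,
    (∀ p q t, (∀ s ≤ t, p s = q s) → σ p t = σ q t) ∧
      ∀ p, Pours p → ∀ t, G.IsIndepSet (σ p t : Set V) ∧ ∀ v, content p (σ p) t v ≤ b

/-- No bucket exceeds `b` in any play in which Cinderella always empties an independent set of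
maximal current content. -/
def GreedyWins (G : SimpleGraph V) (b : ℝ) : Prop :=
  ∀ (p : ℕ → V → ℝ) (I : ℕ → Finset V), Pours p →
    (∀ t, G.IsIndepSet (I t : Set V) ∧ ∀ J : Finset V, G.IsIndepSet (J : Set V) →
      ∑ v ∈ J, content p I t v ≤ ∑ v ∈ I t, content p I t v) →
    ∀ t v, content p I t v ≤ b

/-- The bucket number. -/
noncomputable def bucket (G : SimpleGraph V) : ℝ :=
  sInf {b | 0 < b ∧ Wins G b} - 1

/-- The greedy bucket number. -/
noncomputable def gbucket (G : SimpleGraph V) : ℝ :=
  sInf {b | 0 < b ∧ GreedyWins G b} - 1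

end Pool.Agent.H.MP_196ef9_co
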